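import Mathlib
import Pool.Agent.H99.Bd.Net

/-!
# Sums of few products of powers equal to a multiple of a high power of a prime
-/

set_option autoImplicit false

namespace Pool.Agent.H99.Dg

open Finset Pool.Agent.Y902.GN Pool.Agent.X286.Vn Pool.Agent.H99.Bd

/-- the coefficients of `A - t_1 - … - t_k` -/
def cf (k : ℕ) : Fin (k + 1) → ℤ := Fin.cons 1 (fun _ => -1)

theorem cf_ne (k : ℕ) (i : Fin (k + 1)) : cf k i ≠ 0 ∧ |cf k i| = 1 := by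
  refine Fin.cases ?_ (fun j => ?_) i <;> simp [cf]

/-- a minimal relation with a term divisible by a high power of `p` -/
structure Sol (k r s E R : ℕ) (δ : ℝ) (Y p : ℕ) (B : Finset (Fin (k + 1)))
    (v : Fin (k + 1) → ℤ) : Prop where
  nz : ∀ i, v i ≠ 0
  mv : MinVan (cf k) B v
  hi : ∀ i, ((|v i| : ℤ) : ℝ) ≤ Real.exp ((Y : ℝ) ^ δ)
  rep : Rep (1 + r + s) E Y v
  h0 : (0 : Fin (k + 1)) ∈ B
  pn : ∃ n, Y ^ R ≤ p ^ n ∧ ((p : ℤ) ^ n) ∣ v 0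
  b1 : ∃ j ∈ B, ∃ d Q : ℤ, |d| ≤ (Y : ℤ) ^ E ∧ v j = d * Q ∧ ¬ (p : ℤ) ∣ Q
  b0 : ∃ P : ℕ, P ≠ 0 ∧ P ≤ Y ^ (r + 1) ∧ ∃ u D : ℤ, |u| ≤ (Y : ℤ) ^ E ∧ v 0 = u * D ∧
    ∀ l : ℕ, l.Prime → (l : ℤ) ∣ D → l ∣ P

theorem near_contra {k r s E R C : ℕ} {δ : ℝ} {Y p : ℕ} {B : Finset (Fin (k + 1))}
    {v v' : Fin (k + 1) → ℤ} (hp : p.Prime) (hY : 2 ≤ Y) (hR : 4 * C + 2 * E < R)
    (h : Sol k r s E R δ Y p B v) {u' D' : ℤ} (hv' : v' 0 = u' * D') (hD : ¬ (p : ℤ) ∣ D')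
    (hu' : |u'| ≤ (Y : ℤ) ^ E) (h0 : v' 0 ≠ 0)
    (hn : ∀ i ∈ B, ∀ j ∈ B, Sm ((Y + 2) ^ C * (Y + 2) ^ C) (v i * v' j) (v' i * v j)) :
    False := by
  obtain ⟨n, hn1, hn2⟩ := h.pn
  obtain ⟨j, hj, d, Q, hd, hvj, hQ⟩ := h.b1
  obtain ⟨ρ, ρ', a1, a2, a3, a4, a5⟩ := hn 0 h.h0 j hj
  have hpZ : Prime (p : ℤ) := Nat.prime_iff_prime_int.1 hp
  have e1 : (p : ℤ) ^ n ∣ (D' * Q) * (ρ' * u' * d) := by
    have : (p : ℤ) ^ n ∣ ρ * (v 0 * v' j) := Dvd.dvd.mul_left (Dvd.dvd.mul_right hn2 _) _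
    rw [a5, hv', hvj] at this
    have e : ρ' * (u' * D' * (d * Q)) = (D' * Q) * (ρ' * u' * d) := by ring
    rwa [e] at this
  have hcop : IsCoprime ((p : ℤ) ^ n) (D' * Q) := by
    apply IsCoprime.pow_left
    rw [hpZ.irreducible.coprime_iff_not_dvd]
    intro hcon
    rcases hpZ.dvd_or_dvd hcon with h | h
    · exact hD h
    · exact hQ h
  have e2 := hcop.dvd_of_dvd_mul_left e1
  have hu0 : u' ≠ 0 := fun h => h0 (by rw [hv', h, zero_mul])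
  have hd0 : d ≠ 0 := fun h' => h.nz j (by rw [hvj, h', zero_mul])
  have e3 : (p : ℤ) ^ n ≤ |ρ' * u' * d| :=
    Int.le_of_dvd (abs_pos.2 (mul_ne_zero (mul_ne_zero a2 hu0) hd0)) ((dvd_abs _ _).2 e2)
  have hYZ : (2 : ℤ) ≤ (Y : ℤ) := by exact_mod_cast hY
  have e4 : |ρ' * u' * d| ≤ (Y : ℤ) ^ (4 * C + 2 * E) := by
    rw [abs_mul, abs_mul]
    have e5 : |ρ'| ≤ (Y : ℤ) ^ (4 * C) := by
      refine a4.trans ?_
      push_cast
      have e6 : ((Y : ℤ) + 2) ≤ (Y : ℤ) ^ 2 := by nlinarith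
      calc ((Y : ℤ) + 2) ^ C * ((Y : ℤ) + 2) ^ C = ((Y : ℤ) + 2) ^ (2 * C) := by
            rw [← pow_add]
            congr 1
            ring
        _ ≤ ((Y : ℤ) ^ 2) ^ (2 * C) := pow_le_pow_left₀ (by positivity) e6 _
        _ = (Y : ℤ) ^ (4 * C) := by
            rw [← pow_mul]
            congr 1
            ring
    calc |ρ'| * |u'| * |d| ≤ (Y : ℤ) ^ (4 * C) * (Y : ℤ) ^ E * (Y : ℤ) ^ E := by
          refine mul_le_mul (mul_le_mul e5 hu' (abs_nonneg _) (by positivity)) hd (abs_nonneg _)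
            (by positivity)
      _ = (Y : ℤ) ^ (4 * C + 2 * E) := by
          rw [← pow_add, ← pow_add]
          congr 1
          ring
  have e5 : (Y : ℤ) ^ R ≤ (Y : ℤ) ^ (4 * C + 2 * E) := by
    have : (Y : ℤ) ^ R ≤ (p : ℤ) ^ n := by exact_mod_cast hn1
    exact this.trans (e3.trans e4)
  have e6 : (Y : ℤ) ^ (4 * C + 2 * E) < (Y : ℤ) ^ R :=
    pow_lt_pow_right₀ (by linarith) hR
  linarith

theorem two_pow_card_le {P : ℕ} (hP : P ≠ 0) : 2 ^ P.primeFactors.card ≤ P := by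
  calc 2 ^ P.primeFactors.card = ∏ _p ∈ P.primeFactors, 2 := by rw [prod_const]
    _ ≤ ∏ p ∈ P.primeFactors, p :=
        Finset.prod_le_prod' fun p hp => (Nat.prime_of_mem_primeFactors hp).two_le
    _ ≤ P := Nat.le_of_dvd (Nat.pos_of_ne_zero hP) (Nat.prod_primeFactors_dvd P)

theorem card_primeFactors_le {P Y r : ℕ} (hP : P ≠ 0) (h : P ≤ Y ^ (r + 1)) (hY : 2 ≤ Y) {ε : ℝ}
    (hε : 0 < ε) : (P.primeFactors.card : ℝ) ≤ 2 * (r + 1) / ε * (Y : ℝ) ^ ε := by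
  have h1 : (2 : ℝ) ^ P.primeFactors.card ≤ (Y : ℝ) ^ (r + 1) := by
    exact_mod_cast (two_pow_card_le hP).trans h
  have hYr : (2 : ℝ) ≤ (Y : ℝ) := by exact_mod_cast hY
  have h2 := Real.log_le_log (by positivity) h1
  rw [Real.log_pow, Real.log_pow] at h2
  have h3 : Real.log (Y : ℝ) ≤ (Y : ℝ) ^ ε / ε := Real.log_le_rpow_div (by positivity) hε
  have h4 : (1 : ℝ) / 2 < Real.log 2 := by
    have := Real.log_two_gt_d9
    linarith
  have h5 : (P.primeFactors.card : ℝ) * (1 / 2) ≤ P.primeFactors.card * Real.log 2 :=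
    mul_le_mul_of_nonneg_left h4.le (Nat.cast_nonneg _)
  have h6 : ((r + 1 : ℕ) : ℝ) * Real.log (Y : ℝ) ≤ ((r + 1 : ℕ) : ℝ) * ((Y : ℝ) ^ ε / ε) :=
    mul_le_mul_of_nonneg_left h3 (Nat.cast_nonneg _)
  have h7 : (P.primeFactors.card : ℝ) ≤ 2 * (((r + 1 : ℕ) : ℝ) * ((Y : ℝ) ^ ε / ε)) := by
    linarith
  refine h7.trans (le_of_eq ?_)
  push_cast
  ring

/-- **Few exceptional primes.** -/
theorem few (k r s E : ℕ) (ε : ℝ) (hε : 0 < ε) : ∃ (R : ℕ) (C δ : ℝ), 0 < δ ∧ ∀ Y : ℕ, 2 ≤ Y →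
    ∃ X : Finset ℕ, (X.card : ℝ) ≤ C * (Y : ℝ) ^ ε ∧ ∀ p : ℕ, p.Prime → p ∉ X → ∀ B v,
      ¬ Sol k r s E R δ Y p B v := by
  classical
  obtain ⟨C0, δ, hδ, H⟩ := net (k + 1) (1 + r + s) E (ε / 2) (by positivity)
  refine ⟨4 * C0 + 2 * E + 1, 2 ^ (k + 1) * (2 * (r + 1) / (ε / 2)), δ, hδ, fun Y hY => ?_⟩
  have hYr : (2 : ℝ) ≤ (Y : ℝ) := by exact_mod_cast hY
  have H1 := fun B => H Y (by omega) B (cf k) (fun i _ => ⟨(cf_ne k i).1, by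
    rw [(cf_ne k i).2, Int.cast_one]
    exact Real.one_le_exp (by positivity)⟩)
  choose T hT1 hT2 hT3 using H1
  obtain ⟨Good, hGood⟩ : ∃ Good : Finset (Fin (k + 1)) → (Fin (k + 1) → ℤ) → ℕ → Prop,
      ∀ B w P, Good B w P ↔ (P ≠ 0 ∧ P ≤ Y ^ (r + 1) ∧ ∃ v : Fin (k + 1) → ℤ, v 0 ≠ 0 ∧
        (∀ i, v i ≠ 0) ∧ NearB C0 Y B v w ∧
        ∃ u D : ℤ, |u| ≤ (Y : ℤ) ^ E ∧ v 0 = u * D ∧ ∀ l : ℕ, l.Prime → (l : ℤ) ∣ D → l ∣ P) :=
    ⟨_, fun _ _ _ => Iff.rfl⟩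
  obtain ⟨F, hF⟩ : ∃ F : Finset (Fin (k + 1)) → (Fin (k + 1) → ℤ) → Finset ℕ, ∀ B w,
      F B w = if h : ∃ P, Good B w P then (Classical.choose h).primeFactors else ∅ :=
    ⟨_, fun _ _ => rfl⟩
  refine ⟨univ.biUnion fun B => (T B).biUnion fun w => F B w, ?_, ?_⟩
  · have hFc : ∀ B w, ((F B w).card : ℝ) ≤ 2 * (r + 1) / (ε / 2) * (Y : ℝ) ^ (ε / 2) := by
      intro B w
      rw [hF]
      split_ifs with h
      · have h1 := (hGood _ _ _).1 (Classical.choose_spec h)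
        exact card_primeFactors_le h1.1 h1.2.1 hY (by positivity)
      · rw [card_empty, Nat.cast_zero]
        positivity
    calc ((univ.biUnion fun B => (T B).biUnion fun w => F B w).card : ℝ)
        ≤ ((∑ B, ∑ w ∈ T B, (F B w).card : ℕ) : ℝ) := by
          exact_mod_cast card_biUnion_le.trans (sum_le_sum fun B _ => card_biUnion_le)
      _ = ∑ B, ∑ w ∈ T B, ((F B w).card : ℝ) := by push_cast; rfl
      _ ≤ ∑ B, ∑ w ∈ T B, 2 * ((r : ℝ) + 1) / (ε / 2) * (Y : ℝ) ^ (ε / 2) :=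
          sum_le_sum fun B _ => sum_le_sum fun w _ => hFc B w
      _ = ∑ B, ((T B).card : ℝ) * (2 * ((r : ℝ) + 1) / (ε / 2) * (Y : ℝ) ^ (ε / 2)) := by
          simp [sum_const, nsmul_eq_mul]
      _ ≤ ∑ _B : Finset (Fin (k + 1)), (Y : ℝ) ^ (ε / 2) *
            (2 * ((r : ℝ) + 1) / (ε / 2) * (Y : ℝ) ^ (ε / 2)) :=
          sum_le_sum fun B _ => mul_le_mul_of_nonneg_right (hT1 B) (by positivity)
      _ = 2 ^ (k + 1) * (2 * ((r : ℝ) + 1) / (ε / 2)) *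
            ((Y : ℝ) ^ (ε / 2) * (Y : ℝ) ^ (ε / 2)) := by
          rw [sum_const, nsmul_eq_mul, card_univ, Fintype.card_finset, Fintype.card_fin]
          push_cast
          ring
      _ = _ := by
          rw [← Real.rpow_add (by linarith), add_halves]
  · intro p hp hpX B v hS
    obtain ⟨w, hw1, hw2⟩ := hT3 B v hS.nz hS.mv hS.hi hS.rep
    obtain ⟨P, hP0, hP1, u, D, hu, hD, hl⟩ := hS.b0
    have hex : ∃ P, Good B w P :=
      ⟨P, (hGood _ _ _).2 ⟨hP0, hP1, v, hS.nz 0, hS.nz, hw2, u, D, hu, hD, hl⟩⟩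
    obtain ⟨h1, h2, v', h3, h4, h5, u', D', h6, h7, h8⟩ :=
      (hGood _ _ _).1 (Classical.choose_spec hex)
    refine near_contra (C := C0) hp hY (by omega) hS h7 ?_ h6 h3 ?_
    · intro hcon
      apply hpX
      rw [mem_biUnion]
      refine ⟨B, mem_univ _, ?_⟩
      rw [mem_biUnion]
      refine ⟨w, hw1, ?_⟩
      rw [hF, dif_pos hex, Nat.mem_primeFactors]
      exact ⟨hp, h8 p hp hcon, h1⟩
    · intro i hi j hj
      have g1 := hw2 i hi j hj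
      have g2 := h5 i hi j hj
      obtain ⟨c, e, a1, a2, a3, a4, a5⟩ := g1
      obtain ⟨c', e', b1, b2, b3, b4, b5⟩ := g2
      refine ⟨c * e', e * c', mul_ne_zero a1 b2, mul_ne_zero a2 b1, ?_, ?_, ?_⟩
      · rw [abs_mul]
        push_cast at a3 b4 ⊢
        exact mul_le_mul a3 b4 (abs_nonneg _) (by positivity)
      · rw [abs_mul]
        push_cast at a4 b3 ⊢
        exact mul_le_mul a4 b3 (abs_nonneg _) (by positivity)
      · apply mul_left_cancel₀ (mul_ne_zero (hT2 B w hw1 i) (hT2 B w hw1 j))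
        calc w i * w j * (c * e' * (v i * v' j)) = (c * (v i * w j)) * (e' * (w i * v' j)) := by
              ring
          _ = (e * (w i * v j)) * (c' * (v' i * w j)) := by rw [a5, b5]
          _ = _ := by ring

end Pool.Agent.H99.Dg
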