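import Mathlib
import Pool.Agent.H99.Dg.Core

/-!
# From sums of products of powers to minimal relations
-/

set_option autoImplicit false

namespace Pool.Agent.H99.Dg

open Finset Pool.Agent.Y902.GN Pool.Agent.X286.Vn Pool.Agent.H99.Bd

/-- `A = u p ^ n x_1 ^ e_1 ⋯ x_r ^ e_r` with `p ^ n ≥ Y ^ R`, `1 ≤ u ≤ Y ^ E`, `1 ≤ x_i ≤ Y` -/
def Mult (r E R Y p A : ℕ) : Prop :=
  ∃ (n u : ℕ) (x e : Fin r → ℕ), Y ^ R ≤ p ^ n ∧ 1 ≤ u ∧ u ≤ Y ^ E ∧
    (∀ i, 1 ≤ x i ∧ x i ≤ Y) ∧ A = u * p ^ n * ∏ i, x i ^ e i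

/-- `A` is the sum of the `k` terms `d_i q_1 ^ m_i1 ⋯ q_s ^ m_is`, where `1 ≤ q_j ≤ Y` is not
divisible by `p`, `|d_i| ≤ Y ^ E`, and the terms are at most `exp (Y ^ δ)` -/
def Terms (k s E : ℕ) (δ : ℝ) (Y p : ℕ) (A : ℤ) : Prop :=
  ∃ (q : Fin s → ℕ) (d : Fin k → ℤ) (m : Fin k → Fin s → ℕ),
    (∀ j, 1 ≤ q j ∧ q j ≤ Y ∧ ¬ p ∣ q j) ∧ (∀ i, |d i| ≤ (Y : ℤ) ^ E) ∧
    (∀ i, ((|d i * ∏ j, (q j : ℤ) ^ m i j| : ℤ) : ℝ) ≤ Real.exp ((Y : ℝ) ^ δ)) ∧
    A = ∑ i, d i * ∏ j, (q j : ℤ) ^ m i j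

theorem prime_dvd_prod_pow {r : ℕ} {x e : Fin r → ℕ} {l : ℕ} (hl : l.Prime)
    (h : l ∣ ∏ i, x i ^ e i) : l ∣ ∏ i, x i := by
  obtain ⟨i, -, hi⟩ := (hl.prime.dvd_finsetProd_iff _).1 h
  exact (hl.dvd_of_dvd_pow hi).trans (dvd_prod_of_mem _ (mem_univ i))

theorem prime_not_dvd {s : ℕ} {q m : Fin s → ℕ} {p : ℕ} (hp : p.Prime) (h : ∀ j, ¬ p ∣ q j) :
    ¬ (p : ℤ) ∣ ∏ j, (q j : ℤ) ^ m j := by
  intro hcon
  have h1 : p ∣ ∏ j, q j ^ m j := by
    have : (p : ℤ) ∣ ((∏ j, q j ^ m j : ℕ) : ℤ) := by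
      push_cast
      exact hcon
    exact_mod_cast this
  obtain ⟨j, -, hj⟩ := (hp.prime.dvd_finsetProd_iff _).1 h1
  exact h j (hp.dvd_of_dvd_pow hj)

theorem sol_of_terms {k r s E R : ℕ} {δ : ℝ} {Y p A : ℕ} (hp : p.Prime) (hpY : p ≤ Y)
    (hM : Mult r E R Y p A) (hA : (A : ℝ) ≤ Real.exp ((Y : ℝ) ^ δ))
    (hT : Terms k s E δ Y p A) : ∃ B v, Sol k r s E R δ Y p B v := by
  classical
  obtain ⟨n, u, x, e, h1, h2, h3, h4, h5⟩ := hM
  obtain ⟨q, d, m, g1, g2, g3, g4⟩ := hT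
  obtain ⟨t, ht⟩ : ∃ t : Fin k → ℤ, ∀ i, t i = d i * ∏ j, (q j : ℤ) ^ m i j := ⟨_, fun _ => rfl⟩
  obtain ⟨w, hw⟩ : ∃ w : Fin (k + 1) → ℤ, w = Fin.cons (A : ℤ) t := ⟨_, rfl⟩
  have w0 : w 0 = (A : ℤ) := by rw [hw, Fin.cons_zero]
  have ws : ∀ i : Fin k, w i.succ = t i := fun i => by rw [hw, Fin.cons_succ]
  have hA0 : A ≠ 0 := by
    rw [h5]
    refine mul_ne_zero (mul_ne_zero (by omega) (pow_ne_zero _ hp.ne_zero)) ?_
    exact prod_ne_zero_iff.2 fun i _ => pow_ne_zero _ (by have := (h4 i).1; omega)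
  have hYr : (1 : ℝ) ≤ (Y : ℝ) := by
    have := hp.two_le
    exact_mod_cast (by omega : 1 ≤ Y)
  have hY1 : (1 : ℤ) ≤ (Y : ℤ) := by exact_mod_cast hYr
  obtain ⟨v, hv⟩ : ∃ v : Fin (k + 1) → ℤ, ∀ i, v i = if w i = 0 then 1 else w i :=
    ⟨_, fun _ => rfl⟩
  have hvn : ∀ i, v i ≠ 0 := by
    intro i
    rw [hv]
    split_ifs with h
    · exact one_ne_zero
    · exact h
  have hv0 : v 0 = (A : ℤ) := by
    rw [hv, w0, if_neg (by exact_mod_cast hA0)]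
  obtain ⟨I, hI⟩ : ∃ I : Finset (Fin (k + 1)), I = univ.filter (fun i => w i ≠ 0) := ⟨_, rfl⟩
  have hsum : ∑ i ∈ I, cf k i * v i = 0 := by
    have e1 : ∑ i ∈ I, cf k i * v i = ∑ i, cf k i * w i := by
      rw [hI, sum_filter]
      refine sum_congr rfl fun i _ => ?_
      rw [hv]
      by_cases h : w i = 0
      · simp [h]
      · simp [h]
    rw [e1, Fin.sum_univ_succ, w0]
    simp only [ws]
    have e2 : cf k 0 = 1 := rfl
    have e3 : ∀ i : Fin k, cf k i.succ = -1 := fun _ => rfl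
    rw [e2]
    simp only [e3, neg_mul, one_mul, sum_neg_distrib]
    rw [g4]
    simp only [← ht]
    ring
  have h0I : (0 : Fin (k + 1)) ∈ I := by
    rw [hI, mem_filter]
    exact ⟨mem_univ _, by rw [w0]; exact_mod_cast hA0⟩
  obtain ⟨B, hB1, hB2, hB3, j, hj1, hj2⟩ :=
    exists_block (fun i _ => (cf_ne k i).1) hvn hsum h0I
  obtain ⟨j', rfl⟩ := Fin.exists_succ_eq.2 hj2
  refine ⟨B, v, hvn, hB2, fun i => ?_, ?_, hB3, ⟨n, h1, ?_⟩, ⟨j'.succ, hj1, d j',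
    ∏ i, (q i : ℤ) ^ m j' i, g2 j', ?_, prime_not_dvd hp fun i => (g1 i).2.2⟩, ?_⟩
  · -- the size
    rw [hv]
    split_ifs with h
    · rw [abs_one, Int.cast_one]
      exact Real.one_le_exp (by positivity)
    · rcases Fin.eq_zero_or_eq_succ i with rfl | ⟨i', rfl⟩
      · rw [w0]
        simpa using hA
      · rw [ws, ht]
        exact g3 i'
  · -- the representation
    obtain ⟨sf, hsf⟩ : ∃ sf : Fin (k + 1) → ℤ, ∀ i, sf i = if w i = 0 then 1 else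
        (Fin.cons (u : ℤ) d : Fin (k + 1) → ℤ) i := ⟨_, fun _ => rfl⟩
    obtain ⟨ef, hef⟩ : ∃ ef : Fin (k + 1) → Fin (1 + r + s) → ℕ, ∀ i, ef i = if w i = 0 then
        (fun _ => 0) else (Fin.cons (Fin.append (Fin.append (fun _ => n) e) (fun _ => 0))
        (fun i' => Fin.append (fun _ => 0) (m i')) : Fin (k + 1) → Fin (1 + r + s) → ℕ) i :=
      ⟨_, fun _ => rfl⟩
    refine ⟨sf, Fin.append (Fin.append (fun _ => p) x) q, ef, ?_, ?_, ?_⟩
    · intro j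
      refine Fin.addCases (fun j => ?_) (fun j => ?_) j
      · rw [Fin.append_left]
        refine Fin.addCases (fun j => ?_) (fun j => ?_) j
        · rw [Fin.append_left]
          exact ⟨hp.one_le, hpY⟩
        · rw [Fin.append_right]
          exact h4 j
      · rw [Fin.append_right]
        exact ⟨(g1 j).1, (g1 j).2.1⟩
    · intro i
      rw [hsf]
      by_cases h : w i = 0
      · rw [if_pos h, abs_one]
        exact one_le_pow₀ hY1
      · rw [if_neg h]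
        rcases Fin.eq_zero_or_eq_succ i with rfl | ⟨i', rfl⟩
        · rw [Fin.cons_zero, Nat.abs_cast]
          exact_mod_cast h3
        · rw [Fin.cons_succ]
          exact g2 i'
    · intro i
      rw [hv, hsf, hef]
      by_cases h : w i = 0
      · rw [if_pos h, if_pos h, if_pos h]
        simp
      · rw [if_neg h, if_neg h, if_neg h]
        rcases Fin.eq_zero_or_eq_succ i with rfl | ⟨i', rfl⟩
        · rw [w0, h5, Fin.cons_zero, Fin.cons_zero, Fin.prod_univ_add, Fin.prod_univ_add]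
          simp only [Fin.append_left, Fin.append_right, pow_zero, prod_const_one,
            mul_one, prod_const, card_univ, Fintype.card_fin, pow_one]
          push_cast
          ring
        · rw [ws, ht, Fin.cons_succ, Fin.cons_succ, Fin.prod_univ_add]
          simp only [Fin.append_left, Fin.append_right, pow_zero, prod_const_one,
            one_mul]
  · -- divisibility
    rw [hv0, h5]
    push_cast
    exact Dvd.dvd.mul_right (Dvd.dvd.mul_left (dvd_refl _) _) _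
  · -- the value of the other term
    have : w j'.succ ≠ 0 := by
      have := hB1 hj1
      rw [hI, mem_filter] at this
      exact this.2
    rw [hv, if_neg this, ws, ht]
  · -- the prime factors
    refine ⟨p * ∏ i, x i, mul_ne_zero hp.ne_zero (prod_ne_zero_iff.2 fun i _ => by
      have := (h4 i).1; omega), ?_, (u : ℤ), ((p ^ n * ∏ i, x i ^ e i : ℕ) : ℤ), ?_, ?_, ?_⟩
    · rw [pow_succ, mul_comm (Y ^ r) Y]
      refine Nat.mul_le_mul hpY ?_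
      calc ∏ i, x i ≤ ∏ _i : Fin r, Y := Finset.prod_le_prod' fun i _ => (h4 i).2
        _ = Y ^ r := by rw [prod_const, card_univ, Fintype.card_fin]
    · rw [Nat.abs_cast]
      exact_mod_cast h3
    · rw [hv0, h5]
      push_cast
      ring
    · intro l hl hdvd
      have h6 : l ∣ p ^ n * ∏ i, x i ^ e i := by exact_mod_cast hdvd
      rcases (hl.dvd_mul).1 h6 with h7 | h7
      · exact (hl.dvd_of_dvd_pow h7).trans (dvd_mul_right _ _)
      · exact (prime_dvd_prod_pow hl h7).trans (dvd_mul_left _ _)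

/-- **Sums.** -/
theorem few_terms (k r s E : ℕ) (ε : ℝ) (hε : 0 < ε) : ∃ (R : ℕ) (C δ : ℝ), 0 < δ ∧
    ∀ Y : ℕ, 2 ≤ Y → ∃ X : Finset ℕ, (X.card : ℝ) ≤ C * (Y : ℝ) ^ ε ∧
      ∀ p : ℕ, p.Prime → p ≤ Y → p ∉ X → ∀ A : ℕ, Mult r E R Y p A →
        (A : ℝ) ≤ Real.exp ((Y : ℝ) ^ δ) → ¬ Terms k s E δ Y p A := by
  obtain ⟨R, C, δ, hδ, H⟩ := few k r s E ε hε
  refine ⟨R, C, δ, hδ, fun Y hY => ?_⟩
  obtain ⟨X, hX1, hX2⟩ := H Y hY
  refine ⟨X, hX1, fun p hp hpY hpX A hM hA hT => ?_⟩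
  obtain ⟨B, v, hS⟩ := sol_of_terms hp hpY hM hA hT
  exact hX2 p hp hpX B v hS

end Pool.Agent.H99.Dg
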