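import Mathlib
import Pool.Agent.H99.Dg.Sum

/-!
# Digits: concatenations of few words with small periods
-/

set_option autoImplicit false

namespace Pool.Agent.H99.Dg

open Finset

/-- the base `q` digits of `A` at the places `a, …, b - 1` have the period `π`
(the place `t` is that of `q ^ t`) -/
def Per (q A a b π : ℕ) : Prop := ∀ t, a ≤ t → t + π < b → A / q ^ t % q = A / q ^ (t + π) % q

/-- the base `q` expansion of `A` is a concatenation of `k` (possibly empty) words, each of which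
has a period at most `l` -/
def Simple (q k l A : ℕ) : Prop :=
  ∃ b π : ℕ → ℕ, b 0 = 0 ∧ b k = (Nat.digits q A).length ∧
    ∀ i < k, b i ≤ b (i + 1) ∧ 1 ≤ π i ∧ π i ≤ l ∧ Per q A (b i) (b (i + 1)) (π i)

theorem mod_eq {q x y n : ℕ} (h : ∀ t < n, x / q ^ t % q = y / q ^ t % q) :
    x % q ^ n = y % q ^ n := by
  induction n with
  | zero => simp [Nat.mod_one]
  | succ n ih =>
    rw [Nat.mod_pow_succ, Nat.mod_pow_succ, ih fun t ht => h t (by omega), h n (by omega)]

theorem piece {q W lam π : ℕ} (hq : 2 ≤ q) (hW : W < q ^ lam)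
    (h : ∀ t, t + π < lam → W / q ^ t % q = W / q ^ (t + π) % q) :
    ∃ c c' : ℕ, c < q ^ π ∧ c' < q ^ π ∧
      ((q : ℤ) ^ π - 1) * W = c * (q : ℤ) ^ lam - c' := by
  have hq0 : 0 < q := by omega
  rcases le_or_gt π lam with hl | hl
  · obtain ⟨m, rfl⟩ := Nat.exists_eq_add_of_le hl
    have e1 : W / q ^ π = W % q ^ m := by
      have h1 : W / q ^ π % q ^ m = W % q ^ m := by
        apply mod_eq
        intro t ht
        rw [Nat.div_div_eq_div_mul, ← pow_add, add_comm π t]
        exact (h t (by omega)).symm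
      rwa [Nat.mod_eq_of_lt (Nat.div_lt_of_lt_mul (by rwa [pow_add] at hW))] at h1
    refine ⟨W / q ^ m, W % q ^ π, Nat.div_lt_of_lt_mul (by rwa [add_comm, pow_add] at hW),
      Nat.mod_lt _ (by positivity), ?_⟩
    have e2 : (q : ℤ) ^ π * ((W / q ^ π : ℕ) : ℤ) + ((W % q ^ π : ℕ) : ℤ) = W := by
      exact_mod_cast Nat.div_add_mod W (q ^ π)
    have e3 : (q : ℤ) ^ m * ((W / q ^ m : ℕ) : ℤ) + ((W % q ^ m : ℕ) : ℤ) = W := by
      exact_mod_cast Nat.div_add_mod W (q ^ m)
    rw [e1] at e2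
    rw [pow_add]
    linear_combination e2 - (q : ℤ) ^ π * e3
  · obtain ⟨m, rfl⟩ := Nat.exists_eq_add_of_le hl.le
    refine ⟨q ^ m * W, W, ?_, hW.trans_le (Nat.pow_le_pow_right hq0 (by omega)), ?_⟩
    · rw [pow_add, mul_comm (q ^ lam)]
      exact Nat.mul_lt_mul_of_pos_left hW (by positivity)
    · push_cast
      rw [pow_add]
      ring

theorem pieces {q A : ℕ} (b : ℕ → ℕ) (h0 : b 0 = 0) : ∀ k : ℕ, (∀ i < k, b i ≤ b (i + 1)) →
    A % q ^ b k = ∑ i ∈ range k, q ^ b i * (A / q ^ b i % q ^ (b (i + 1) - b i)) := by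
  intro k
  induction k with
  | zero => intro _; rw [h0]; simp [Nat.mod_one]
  | succ k ih =>
    intro h
    rw [sum_range_succ, ← ih fun i hi => h i (by omega)]
    have e : b (k + 1) = b k + (b (k + 1) - b k) := by
      have := h k (by omega)
      omega
    conv_lhs => rw [e, pow_add, Nat.mod_mul]

/-- a simple number times a small number is a sum of few terms -/
theorem terms_of_simple {q k l A Y p : ℕ} {δ' : ℝ} (hq : 2 ≤ q) (hqY : q ≤ Y) (hpq : ¬ p ∣ q)
    (hA : A ≠ 0)
    (hsize : (Y : ℝ) ^ ((k + 1) * l + 1) * A ≤ Real.exp ((Y : ℝ) ^ δ'))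
    (h : Simple q k l A) : ∃ M : ℕ, 1 ≤ M ∧ M ≤ Y ^ (k * l) ∧
      Terms (k + k) 1 ((k + 1) * l) δ' Y p ((A * M : ℕ) : ℤ) := by
  classical
  obtain ⟨b, π, hb0, hbk, hb⟩ := h
  have hq0 : 0 < q := by omega
  have hY0 : 0 < Y := by omega
  have hqZ : (1 : ℤ) ≤ (q : ℤ) := by exact_mod_cast hq0
  obtain ⟨W, hW⟩ : ∃ W : ℕ → ℕ, ∀ i, W i = A / q ^ b i % q ^ (b (i + 1) - b i) :=
    ⟨_, fun _ => rfl⟩
  have hAlt : A < q ^ b k := by
    rw [hbk]
    exact Nat.lt_base_pow_length_digits hq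
  have hAsum : A = ∑ i ∈ range k, q ^ b i * W i := by
    have h1 := pieces (q := q) (A := A) b hb0 k fun i hi => (hb i hi).1
    rw [Nat.mod_eq_of_lt hAlt] at h1
    rw [h1]
    exact sum_congr rfl fun i _ => by rw [hW]
  have hpc : ∀ i < k, ∃ c c' : ℕ, c < q ^ π i ∧ c' < q ^ π i ∧
      ((q : ℤ) ^ π i - 1) * W i = c * (q : ℤ) ^ (b (i + 1) - b i) - c' := by
    intro i hi
    apply piece hq
    · rw [hW]
      exact Nat.mod_lt _ (by positivity)
    · intro t ht
      have key : ∀ t', t' < b (i + 1) - b i → W i / q ^ t' % q = A / q ^ (b i + t') % q := by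
        intro t' ht'
        obtain ⟨m, hm⟩ := Nat.exists_eq_add_of_lt ht'
        have hm' : b (i + 1) - b i = t' + (1 + m) := by omega
        rw [hW, hm', pow_add q t', Nat.mod_mul_right_div_self, Nat.div_div_eq_div_mul, ← pow_add,
          pow_add q 1, pow_one, Nat.mod_mul_right_mod]
      rw [key t (by omega), key (t + π i) (by omega)]
      have := (hb i hi).2.2.2 (b i + t) (by omega) (by omega)
      rw [this]
      congr 3
      omega
  choose! c c' hc hc' hcc using hpc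
  have hpos : ∀ i < k, 1 ≤ q ^ π i - 1 := by
    intro i hi
    have h1 := (hb i hi).2.1
    have h2 : q ^ 1 ≤ q ^ π i := Nat.pow_le_pow_right hq0 h1
    rw [pow_one] at h2
    omega
  have hle : ∀ i < k, q ^ π i ≤ Y ^ l := fun i hi =>
    (Nat.pow_le_pow_left hqY _).trans (Nat.pow_le_pow_right hY0 (hb i hi).2.2.1)
  obtain ⟨M, hM⟩ : ∃ M : ℕ, M = ∏ i ∈ range k, (q ^ π i - 1) := ⟨_, rfl⟩
  obtain ⟨N, hN⟩ : ∃ N : ℕ → ℕ, ∀ i, N i = ∏ j ∈ (range k).erase i, (q ^ π j - 1) :=
    ⟨_, fun _ => rfl⟩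
  have hMN : ∀ i < k, M = (q ^ π i - 1) * N i := by
    intro i hi
    rw [hM, hN, mul_prod_erase (range k) (fun j => q ^ π j - 1) (mem_range.2 hi)]
  have hprod : ∀ S : Finset ℕ, S ⊆ range k → ∏ j ∈ S, (q ^ π j - 1) ≤ Y ^ (k * l) := by
    intro S hS
    calc ∏ j ∈ S, (q ^ π j - 1) ≤ ∏ _j ∈ S, Y ^ l := by
          refine Finset.prod_le_prod' fun j hj => ?_
          exact (Nat.sub_le _ _).trans (hle j (mem_range.1 (hS hj)))
      _ = (Y ^ l) ^ S.card := by rw [prod_const]
      _ ≤ (Y ^ l) ^ k := Nat.pow_le_pow_right (by positivity) (by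
          have := card_le_card hS
          rwa [card_range] at this)
      _ = Y ^ (k * l) := by rw [← pow_mul, mul_comm]
  have hNle : ∀ i, N i ≤ Y ^ (k * l) := fun i => by
    rw [hN]
    exact hprod _ (erase_subset _ _)
  have hMcast : ∀ i < k, (M : ℤ) = ((q : ℤ) ^ π i - 1) * N i := by
    intro i hi
    rw [hMN i hi]
    have h1 : 1 ≤ q ^ π i := Nat.one_le_pow _ _ hq0
    push_cast [h1]
    ring
  have hmono : ∀ j ≤ k, ∀ i ≤ j, b i ≤ b j := by
    intro j
    induction j with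
    | zero => intro _ i hi; rw [Nat.le_zero.1 hi]
    | succ j ih =>
      intro hj i hi
      rcases Nat.lt_or_ge i (j + 1) with h1 | h1
      · exact (ih (by omega) i (by omega)).trans (hb j (by omega)).1
      · rw [le_antisymm hi h1]
  have hqb : ∀ i ≤ k, q ^ b i ≤ Y * A := by
    intro i hi
    calc q ^ b i ≤ q ^ b k := Nat.pow_le_pow_right hq0 (hmono k le_rfl i hi)
      _ ≤ q * A := by rw [hbk]; exact Nat.base_pow_length_digits_le q A (by omega) hA
      _ ≤ Y * A := Nat.mul_le_mul_right _ hqY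
  have hcoef : ∀ i < k, ∀ z, z < q ^ π i → N i * z ≤ Y ^ ((k + 1) * l) := by
    intro i hi z hz
    calc N i * z ≤ Y ^ (k * l) * Y ^ l := Nat.mul_le_mul (hNle i) (hz.le.trans (hle i hi))
      _ = Y ^ ((k + 1) * l) := by
          rw [← pow_add]
          congr 1
          ring
  have hterm : ∀ i < k, ∀ z, z < q ^ π i → ∀ i' ≤ k,
      ((N i * z * q ^ b i' : ℕ) : ℝ) ≤ Real.exp ((Y : ℝ) ^ δ') := by
    intro i hi z hz i' hi'
    refine le_trans ?_ hsize
    have h1 : N i * z * q ^ b i' ≤ Y ^ ((k + 1) * l + 1) * A := by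
      calc N i * z * q ^ b i' ≤ Y ^ ((k + 1) * l) * (Y * A) :=
            Nat.mul_le_mul (hcoef i hi z hz) (hqb i' hi')
        _ = Y ^ ((k + 1) * l + 1) * A := by ring
    exact_mod_cast h1
  have hsum : ((A * M : ℕ) : ℤ) = ∑ i : Fin k, ((N i * c i * q ^ b (i + 1) : ℕ) : ℤ) +
      ∑ i : Fin k, -((N i * c' i * q ^ b i : ℕ) : ℤ) := by
    have e1 : ((A * M : ℕ) : ℤ) = ∑ i ∈ range k, (q : ℤ) ^ b i * W i * M := by
      rw [Nat.cast_mul]
      conv_lhs => rw [hAsum]
      push_cast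
      rw [sum_mul]
    rw [e1, ← sum_add_distrib, Finset.sum_range]
    refine sum_congr rfl fun i _ => ?_
    have hi : (i : ℕ) < k := i.2
    have h1 := hcc i hi
    have h2 : b ((i : ℕ) + 1) = b i + (b (i + 1) - b i) := by
      have := (hb i hi).1
      omega
    rw [hMcast i hi]
    push_cast
    rw [h2, pow_add]
    linear_combination (q : ℤ) ^ b i * N i * h1
  refine ⟨M, ?_, ?_, fun _ => q, Fin.append (fun i : Fin k => ((N i * c i : ℕ) : ℤ))
    (fun i : Fin k => -((N i * c' i : ℕ) : ℤ)),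
    Fin.append (fun i : Fin k => fun _ => b (i + 1)) (fun i : Fin k => fun _ => b i),
    fun _ => ⟨hq0, hqY, hpq⟩, ?_, ?_, ?_⟩
  · rw [hM]
    exact Finset.one_le_prod' fun i hi => hpos i (mem_range.1 hi)
  · rw [hM]
    exact hprod _ subset_rfl
  · intro j
    refine Fin.addCases (fun i => ?_) (fun i => ?_) j
    · rw [Fin.append_left, Nat.abs_cast]
      exact_mod_cast hcoef i i.2 _ (hc i i.2)
    · rw [Fin.append_right, abs_neg, Nat.abs_cast]
      exact_mod_cast hcoef i i.2 _ (hc' i i.2)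
  · intro j
    refine Fin.addCases (fun i => ?_) (fun i => ?_) j
    · rw [Fin.append_left, Fin.append_left]
      have := hterm i i.2 _ (hc i i.2) (i + 1) i.2
      rw [Fin.prod_univ_one]
      have e : |((N i * c i : ℕ) : ℤ) * (q : ℤ) ^ b (i + 1)| =
          ((N i * c i * q ^ b (i + 1) : ℕ) : ℤ) := by
        rw [abs_of_nonneg (by positivity)]
        push_cast
        ring
      rw [e]
      exact_mod_cast this
    · rw [Fin.append_right, Fin.append_right]
      have := hterm i i.2 _ (hc' i i.2) i i.2.le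
      rw [Fin.prod_univ_one]
      have e : |-((N i * c' i : ℕ) : ℤ) * (q : ℤ) ^ b i| =
          ((N i * c' i * q ^ b i : ℕ) : ℤ) := by
        rw [neg_mul, abs_neg, abs_of_nonneg (by positivity)]
        push_cast
        ring
      rw [e]
      exact_mod_cast this
  · rw [Fin.sum_univ_add, hsum]
    congr 1
    · refine sum_congr rfl fun i _ => ?_
      rw [Fin.append_left, Fin.append_left, Fin.prod_univ_one]
      push_cast
      ring
    · refine sum_congr rfl fun i _ => ?_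
      rw [Fin.append_right, Fin.append_right, Fin.prod_univ_one]
      push_cast
      ring

end Pool.Agent.H99.Dg
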